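import Mathlib
import Pool.Agent.H479R3.WijAms
import Pool.Agent.H479R3.WijSub
import Pool.Agent.H479R3.WijBase

set_option autoImplicit false

universe u

namespace Pool.Agent.Results.MP_091b66_gt.WijsmanAmsterdam

open Pool.Agent.H479R3.Wij Pool.Agent.H479R3.Ams

/-- Full answer to Q1. (a) If a metric space `X` is pseudocomplete, then so is its Wijsman
hyperspace. (b) If a metric space `X` is subcompact, then so is its Wijsman hyperspace. (c) There is
a base-compact metric space `X` whose Wijsman hyperspace is not base-compact. -/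
theorem result :
    (∀ (X : Type u) [MetricSpace X], Pseudocomplete X → Pseudocomplete (Hyp X)) ∧
    (∀ (X : Type u) [MetricSpace X], Subcompact X → Subcompact (Hyp X)) ∧
    (∃ (X : Type) (_ : MetricSpace X), BaseCompact X ∧ ¬ BaseCompact (Hyp X)) :=
  ⟨fun _ _ h => Pool.Agent.H479R3.WijAms.pseudocomplete h,
    fun _ _ h => Pool.Agent.H479R3.WijSub.subcompact h,
    Pool.Agent.H479R3.WijBase.Pt, inferInstance, Pool.Agent.H479R3.WijBase.baseCompact,
    Pool.Agent.H479R3.WijBase.not_baseCompact⟩

end Pool.Agent.Results.MP_091b66_gt.WijsmanAmsterdam
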